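import Mathlib

set_option autoImplicit false

open Filter Topology
open scoped NNReal

namespace Pool.Agent.Results.MP_2fc951_gt.NoUniversalSpace

universe u v

/-- Bounded geometry: for every `r > 0` there is a finite bound for the number of points of all
closed balls of radius `r`. -/
def BoundedGeometry (X : Type u) [MetricSpace X] : Prop :=
  ∀ r : ℝ, 0 < r → ∃ N : ℕ, ∀ x : X, (Metric.closedBall x r).encard ≤ N

/-- `f : Y → X` is a coarse embedding. -/
def IsCoarseEmbedding {Y : Type v} {X : Type u} [MetricSpace Y] [MetricSpace X]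
    (f : Y → X) : Prop :=
  ∃ ρm ρp : ℝ≥0 → ℝ≥0, Monotone ρm ∧ Monotone ρp ∧ Tendsto ρm atTop atTop ∧
    ∀ y y' : Y, ρm (nndist y y') ≤ nndist (f y) (f y') ∧
      nndist (f y) (f y') ≤ ρp (nndist y y')

/-! ### The space `Y` -/

/-- The relation defining the graph: `i` is joined to `i+1`, and `2^k+a` is joined to
`2^k+π_k(a)`. -/
def Rel (π : ∀ k : ℕ, Equiv.Perm (Fin (2 ^ k))) (i j : ℕ) : Prop :=
  j = i + 1 ∨ ∃ (k : ℕ) (a : Fin (2 ^ k)), i = 2 ^ k + a ∧ j = 2 ^ k + π k a

/-- The graph on `ℕ`. -/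
def graph (π : ∀ k : ℕ, Equiv.Perm (Fin (2 ^ k))) : SimpleGraph ℕ :=
  SimpleGraph.fromRel (Rel π)

theorem graph_succ (π : ∀ k : ℕ, Equiv.Perm (Fin (2 ^ k))) (i : ℕ) :
    (graph π).Adj i (i + 1) := by
  rw [graph, SimpleGraph.fromRel_adj]
  exact ⟨by omega, Or.inl (Or.inl rfl)⟩

theorem graph_perm (π : ∀ k : ℕ, Equiv.Perm (Fin (2 ^ k))) (k : ℕ) (a : Fin (2 ^ k)) :
    2 ^ k + (a : ℕ) = 2 ^ k + (π k a : ℕ) ∨
      (graph π).Adj (2 ^ k + a) (2 ^ k + (π k a : ℕ)) := by
  rw [graph, SimpleGraph.fromRel_adj]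
  by_cases h : 2 ^ k + (a : ℕ) = 2 ^ k + (π k a : ℕ)
  · exact Or.inl h
  · exact Or.inr ⟨h, Or.inl (Or.inr ⟨k, a, rfl, rfl⟩)⟩

theorem graph_connected (π : ∀ k : ℕ, Equiv.Perm (Fin (2 ^ k))) : (graph π).Connected := by
  have h0 : ∀ n : ℕ, (graph π).Reachable 0 n := by
    intro n
    induction n with
    | zero => exact SimpleGraph.Reachable.refl _
    | succ n ih => exact ih.trans (graph_succ π n).reachable
  rw [SimpleGraph.connected_iff]
  exact ⟨fun i j => (h0 i).symm.trans (h0 j), ⟨0⟩⟩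

/-- The metric space of a connected graph. -/
noncomputable def graphMetric (G : SimpleGraph ℕ) (hG : G.Connected) : MetricSpace ℕ where
  dist u v := (G.dist u v : ℝ)
  dist_self u := by simp
  dist_comm u v := by simp [SimpleGraph.dist_comm]
  dist_triangle u v w := by exact_mod_cast hG.dist_triangle
  eq_of_dist_eq_zero := by
    intro u v h
    exact (hG.dist_eq_zero_iff).1 (by exact_mod_cast h)

/-- image of `i` under the block permutation -/
def nxt (π : ∀ k : ℕ, Equiv.Perm (Fin (2 ^ k))) (i : ℕ) : ℕ :=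
  2 ^ (Nat.log 2 i) + π (Nat.log 2 i) ⟨i - 2 ^ (Nat.log 2 i), by
    have h1 : i < 2 ^ (Nat.log 2 i + 1) := Nat.lt_pow_succ_log_self (by norm_num) i
    have h2 : 0 < 2 ^ (Nat.log 2 i) := by positivity
    rw [pow_succ] at h1
    omega⟩

theorem nxt_eq (π : ∀ k : ℕ, Equiv.Perm (Fin (2 ^ k))) (k : ℕ) (a : Fin (2 ^ k)) :
    nxt π (2 ^ k + a) = 2 ^ k + π k a := by
  have hk : Nat.log 2 (2 ^ k + a) = k := by
    rw [Nat.log_eq_iff]
    · constructor
      · omega
      · have := a.2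
        rw [pow_succ]
        omega
    · right
      constructor
      · norm_num
      · have : 0 < 2 ^ k := by positivity
        omega
  unfold nxt
  congr 1
  · rw [hk]
  · have : ∀ (m : ℕ) (hm : m = k) (b : Fin (2 ^ m)), (b : ℕ) = a → (π m b : ℕ) = π k a := by
      intro m hm b hb
      subst hm
      congr 2
      exact Fin.ext hb
    apply this _ hk
    simp only
    rw [hk]
    omega

/-- finite set containing all neighbours -/
def step (π : ∀ k : ℕ, Equiv.Perm (Fin (2 ^ k))) (i : ℕ) : Finset ℕ :=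
  {i, i + 1, i - 1, nxt π i, nxt (fun k => (π k).symm) i}

theorem adj_mem_step (π : ∀ k : ℕ, Equiv.Perm (Fin (2 ^ k))) (i j : ℕ)
    (h : (graph π).Adj i j) : j ∈ step π i := by
  rw [graph, SimpleGraph.fromRel_adj] at h
  unfold step
  simp only [Finset.mem_insert, Finset.mem_singleton]
  obtain ⟨_, h | h⟩ := h
  · rcases h with h | ⟨k, a, rfl, rfl⟩
    · exact Or.inr (Or.inl h)
    · rw [nxt_eq]
      simp
  · rcases h with h | ⟨k, a, rfl, rfl⟩
    · right; right; left
      omega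
    · rw [nxt_eq (fun k => (π k).symm)]
      simp

/-- finite set containing the ball of radius `n` -/
def ballF (π : ∀ k : ℕ, Equiv.Perm (Fin (2 ^ k))) : ℕ → ℕ → Finset ℕ
  | 0, i => {i}
  | n + 1, i => (step π i).biUnion (ballF π n)

theorem card_ballF (π : ∀ k : ℕ, Equiv.Perm (Fin (2 ^ k))) (n i : ℕ) :
    (ballF π n i).card ≤ 5 ^ n := by
  induction n generalizing i with
  | zero => simp [ballF]
  | succ n ih =>
    rw [ballF]
    refine le_trans (Finset.card_biUnion_le_card_mul _ _ (5 ^ n) (fun j _ => ih j)) ?_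
    rw [pow_succ, mul_comm]
    apply Nat.mul_le_mul_left
    exact Finset.card_le_five

theorem self_mem_ballF (π : ∀ k : ℕ, Equiv.Perm (Fin (2 ^ k))) (n i j : ℕ)
    (h : j ∈ ballF π n i) : j ∈ ballF π (n + 1) i := by
  rw [ballF, Finset.mem_biUnion]
  exact ⟨i, by simp [step], h⟩

theorem ballF_mono (π : ∀ k : ℕ, Equiv.Perm (Fin (2 ^ k))) (n m i j : ℕ) (hnm : n ≤ m)
    (h : j ∈ ballF π n i) : j ∈ ballF π m i := by
  induction m, hnm using Nat.le_induction with
  | base => exact h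
  | succ m _ ih => exact self_mem_ballF π m i j ih

theorem walk_mem_ballF (π : ∀ k : ℕ, Equiv.Perm (Fin (2 ^ k))) (i j : ℕ)
    (p : (graph π).Walk i j) : j ∈ ballF π p.length i := by
  induction p with
  | nil => simp [ballF]
  | cons h q ih =>
    rw [SimpleGraph.Walk.length_cons, ballF, Finset.mem_biUnion]
    exact ⟨_, adj_mem_step π _ _ h, ih⟩

theorem boundedGeometry_graph (π : ∀ k : ℕ, Equiv.Perm (Fin (2 ^ k))) :
    @BoundedGeometry ℕ (graphMetric (graph π) (graph_connected π)) := by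
  letI := graphMetric (graph π) (graph_connected π)
  intro r hr
  refine ⟨5 ^ ⌊r⌋₊, fun i => ?_⟩
  have hsub : Metric.closedBall i r ⊆ (ballF π ⌊r⌋₊ i : Set ℕ) := by
    intro j hj
    rw [Metric.mem_closedBall, dist_comm] at hj
    have hj' : ((graph π).dist i j : ℝ) ≤ r := hj
    obtain ⟨p, hp⟩ := (graph_connected π).exists_walk_length_eq_dist i j
    have h1 := walk_mem_ballF π i j p
    rw [Finset.mem_coe]
    refine ballF_mono π _ _ i j ?_ h1
    rw [hp]
    exact Nat.le_floor hj'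
  calc (Metric.closedBall i r).encard ≤ (ballF π ⌊r⌋₊ i : Set ℕ).encard :=
        Set.encard_le_encard hsub
    _ = ((ballF π ⌊r⌋₊ i).card : ℕ∞) := Set.encard_coe_eq_coe_finsetCard _
    _ ≤ ((5 ^ ⌊r⌋₊ : ℕ) : ℕ∞) := by exact_mod_cast card_ballF π _ i

/-! ### Counting -/

section Counting

variable {X : Type u} [MetricSpace X]

/-- Permutations of the `k`-th block that are compatible with some `(L,K)`-map. -/
def Bad (k : ℕ) (x₀ : X) (L K : ℕ) : Set (Equiv.Perm (Fin (2 ^ k))) :=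
  {π | ∃ f : ℕ → X, f 0 = x₀ ∧ (∀ i, dist (f i) (f (i + 1)) ≤ L) ∧
    (∀ i, ({j | dist (f i) (f j) ≤ L} : Set ℕ).encard ≤ K) ∧
    ∀ a : Fin (2 ^ k), dist (f (2 ^ k + a)) (f (2 ^ k + (π a : ℕ))) ≤ L}

theorem exists_enum (s : Set X) (D : ℕ) (hs : s.encard ≤ D) (x₀ : X) :
    ∃ g : ℕ → X, ∀ x ∈ s, ∃ i : Fin D, g i = x := by
  classical
  have hfin : s.Finite := Set.finite_of_encard_le_coe hs
  have hcard : hfin.toFinset.card ≤ D := by
    have : (hfin.toFinset.card : ℕ∞) ≤ D := by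
      rw [← Set.encard_coe_eq_coe_finsetCard, Set.Finite.coe_toFinset]
      exact hs
    exact_mod_cast this
  refine ⟨fun i => hfin.toFinset.toList.getD i x₀, fun x hx => ?_⟩
  have hx' : x ∈ hfin.toFinset.toList := by
    rw [Finset.mem_toList, Set.Finite.mem_toFinset]
    exact hx
  obtain ⟨i, hi, hix⟩ := List.mem_iff_getElem.1 hx'
  have hi' : i < D := lt_of_lt_of_le hi (by rw [Finset.length_toList]; exact hcard)
  refine ⟨⟨i, hi'⟩, ?_⟩
  simp only
  rw [List.getD_eq_getElem _ _ hi]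
  exact hix

/-- map coded by `c` -/
def walkMap (e : X → ℕ → X) (x₀ : X) (c : ℕ → ℕ) : ℕ → X
  | 0 => x₀
  | i + 1 => e (walkMap e x₀ c i) (c i)

theorem card_bad (k : ℕ) (x₀ : X) (L K D : ℕ)
    (hD : ∀ x : X, (Metric.closedBall x (L : ℝ)).encard ≤ D) :
    (Bad k x₀ L K).encard ≤ ((D ^ 2 * K) ^ (2 ^ k) : ℕ) := by
  classical
  have he : ∀ x : X, ∃ g : ℕ → X, ∀ y, dist x y ≤ L → ∃ i : Fin D, g i = y := by
    intro x
    obtain ⟨g, hg⟩ := exists_enum (Metric.closedBall x (L : ℝ)) D (hD x) x₀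
    refine ⟨g, fun y hy => hg y ?_⟩
    rw [Metric.mem_closedBall, dist_comm]
    exact hy
  choose e he using he
  -- extend a code
  let ext : (Fin (2 ^ (k + 1)) → Fin D) → ℕ → ℕ :=
    fun c i => if h : i < 2 ^ (k + 1) then (c ⟨i, h⟩ : ℕ) else 0
  let F : (Fin (2 ^ (k + 1)) → Fin D) → ℕ → X := fun c => walkMap e x₀ (ext c)
  let Nb : (Fin (2 ^ (k + 1)) → Fin D) → Fin (2 ^ k) → Finset (Fin (2 ^ k)) :=
    fun c a => Finset.univ.filter (fun b => dist (F c (2 ^ k + a)) (F c (2 ^ k + b)) ≤ L)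
  let T : (Fin (2 ^ (k + 1)) → Fin D) → Finset (Equiv.Perm (Fin (2 ^ k))) :=
    fun c => if (∀ a, (Nb c a).card ≤ K) then
      Finset.univ.filter (fun π : Equiv.Perm (Fin (2 ^ k)) => ∀ a, π a ∈ Nb c a) else ∅
  have hT : ∀ c, (T c).card ≤ K ^ (2 ^ k) := by
    intro c
    by_cases hc : ∀ a, (Nb c a).card ≤ K
    · have : T c = Finset.univ.filter (fun π : Equiv.Perm (Fin (2 ^ k)) => ∀ a, π a ∈ Nb c a) :=
        if_pos hc
      rw [this]
      have h1 : (Finset.univ.filter
          (fun π : Equiv.Perm (Fin (2 ^ k)) => ∀ a, π a ∈ Nb c a)).card ≤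
          (Fintype.piFinset (Nb c)).card := by
        apply Finset.card_le_card_of_injOn (fun π : Equiv.Perm (Fin (2 ^ k)) => (π : Fin (2 ^ k) → Fin (2 ^ k)))
        · intro π hπ
          simp only [Finset.coe_filter, Finset.mem_univ, true_and, Set.mem_setOf_eq] at hπ
          rw [Finset.mem_coe, Fintype.mem_piFinset]
          exact hπ
        · intro π _ π' _ h
          exact Equiv.coe_fn_injective h
      refine le_trans h1 ?_
      rw [Fintype.card_piFinset]
      refine le_trans (Finset.prod_le_pow_card _ _ K (fun a _ => hc a)) ?_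
      simp
    · have : T c = ∅ := if_neg hc
      rw [this]
      simp
  have hsub : Bad k x₀ L K ⊆ (Finset.univ.biUnion T : Finset (Equiv.Perm (Fin (2 ^ k)))) := by
    rintro π ⟨f, hf0, hf1, hf2, hf3⟩
    have hc : ∀ i : ℕ, ∃ j : Fin D, e (f i) j = f (i + 1) := fun i => he (f i) _ (hf1 i)
    choose c hc using hc
    let c' : Fin (2 ^ (k + 1)) → Fin D := fun i => c i
    have hF : ∀ i ≤ 2 ^ (k + 1), F c' i = f i := by
      intro i
      induction i with
      | zero => intro _; exact hf0.symm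
      | succ i ih =>
        intro hi
        have h1 : F c' (i + 1) = e (F c' i) (ext c' i) := rfl
        rw [h1, ih (by omega)]
        have h2 : ext c' i = (c i : ℕ) := by
          simp only [ext]
          rw [dif_pos (by omega : i < 2 ^ (k + 1))]
        rw [h2]
        exact hc i
    have hlt : ∀ a : Fin (2 ^ k), 2 ^ k + (a : ℕ) ≤ 2 ^ (k + 1) := by
      intro a
      have := a.2
      rw [pow_succ]
      omega
    rw [Finset.mem_coe, Finset.mem_biUnion]
    refine ⟨c', Finset.mem_univ _, ?_⟩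
    have hNb : ∀ a, (Nb c' a).card ≤ K := by
      intro a
      have h1 := hf2 (2 ^ k + a)
      have h2 : ((Nb c' a).image (fun b : Fin (2 ^ k) => 2 ^ k + (b : ℕ)) : Set ℕ) ⊆
          {j | dist (f (2 ^ k + a)) (f j) ≤ L} := by
        intro j hj
        rw [Finset.mem_coe, Finset.mem_image] at hj
        obtain ⟨b, hb, rfl⟩ := hj
        simp only [Nb, Finset.mem_filter, Finset.mem_univ, true_and] at hb
        rw [hF _ (hlt a), hF _ (hlt b)] at hb
        exact hb
      have h3 := Set.encard_le_encard h2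
      rw [Set.encard_coe_eq_coe_finsetCard, Finset.card_image_of_injective] at h3
      · have h4 := le_trans h3 h1
        exact_mod_cast h4
      · intro b b' h
        apply Fin.ext
        simpa using h
    have hTc : T c' = Finset.univ.filter
        (fun π : Equiv.Perm (Fin (2 ^ k)) => ∀ a, π a ∈ Nb c' a) := if_pos hNb
    rw [hTc, Finset.mem_filter]
    refine ⟨Finset.mem_univ _, fun a => ?_⟩
    simp only [Nb, Finset.mem_filter, Finset.mem_univ, true_and]
    rw [hF _ (hlt a), hF _ (hlt _)]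
    exact hf3 a
  calc (Bad k x₀ L K).encard ≤ ((Finset.univ.biUnion T : Finset (Equiv.Perm (Fin (2 ^ k)))) :
        Set (Equiv.Perm (Fin (2 ^ k)))).encard := Set.encard_le_encard hsub
    _ = ((Finset.univ.biUnion T).card : ℕ∞) := Set.encard_coe_eq_coe_finsetCard _
    _ ≤ (((D ^ 2 * K) ^ (2 ^ k) : ℕ) : ℕ∞) := by
      have h1 := Finset.card_biUnion_le_card_mul (Finset.univ) T (K ^ (2 ^ k)) (fun c _ => hT c)
      have h2 : (Finset.univ : Finset (Fin (2 ^ (k + 1)) → Fin D)).card = D ^ (2 ^ (k + 1)) := by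
        simp
      rw [h2] at h1
      have h3 : D ^ (2 ^ (k + 1)) * K ^ (2 ^ k) = (D ^ 2 * K) ^ (2 ^ k) := by
        rw [mul_pow, ← pow_mul, pow_succ, mul_comm 2]
      rw [h3] at h1
      exact_mod_cast h1

theorem exists_good (x₀ : X) (L K D : ℕ)
    (hD : ∀ x : X, (Metric.closedBall x (L : ℝ)).encard ≤ D) :
    ∃ k₀ : ℕ, ∀ k ≥ k₀, ∃ π : Equiv.Perm (Fin (2 ^ k)), π ∉ Bad k x₀ L K := by
  have h1 := FloorSemiring.tendsto_pow_div_factorial_atTop ((D ^ 2 * K : ℕ) : ℝ)
  have h2 : Tendsto (fun k : ℕ => 2 ^ k) atTop atTop := tendsto_pow_atTop_atTop_of_one_lt (by norm_num : (1 : ℕ) < 2)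
  have h3 := (h1.comp h2).eventually_lt_const (zero_lt_one)
  obtain ⟨k₀, hk₀⟩ := eventually_atTop.1 h3
  refine ⟨k₀, fun k hk => ?_⟩
  by_contra hcon
  push Not at hcon
  have h4 := hk₀ k hk
  simp only [Function.comp] at h4
  rw [div_lt_one (by positivity)] at h4
  have h5 : (D ^ 2 * K) ^ (2 ^ k) < (2 ^ k).factorial := by exact_mod_cast h4
  have h6 : Bad k x₀ L K = Set.univ := Set.eq_univ_of_forall hcon
  have h7 := card_bad k x₀ L K D hD
  rw [h6, Set.encard_univ, ENat.card_eq_coe_fintype_card, Fintype.card_perm, Fintype.card_fin] at h7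
  have h8 : (2 ^ k).factorial ≤ (D ^ 2 * K) ^ (2 ^ k) := by exact_mod_cast h7
  omega

end Counting

/-- The data of a coarse embedding used in the counting argument. -/
theorem coarse_data {Y : Type v} {X : Type u} [MetricSpace Y] [MetricSpace X] (f : Y → X)
    (hf : IsCoarseEmbedding f) (hY : BoundedGeometry Y) :
    ∃ L K : ℕ, 0 < L ∧ (∀ y y' : Y, dist y y' ≤ 1 → dist (f y) (f y') ≤ (L : ℝ)) ∧
      ∀ y : Y, ({y' | dist (f y) (f y') ≤ (L : ℝ)} : Set Y).encard ≤ K := by
  obtain ⟨ρm, ρp, hm, hp, htend, hf⟩ := hf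
  obtain ⟨L, hL⟩ := exists_nat_ge (ρp 1)
  have hL1 : ∀ y y' : Y, dist y y' ≤ 1 → dist (f y) (f y') ≤ ((L + 1 : ℕ) : ℝ) := by
    intro y y' hyy
    have h2 : nndist y y' ≤ 1 := by
      have : ((nndist y y' : ℝ≥0) : ℝ) ≤ ((1 : ℝ≥0) : ℝ) := by rw [coe_nndist]; simpa using hyy
      exact_mod_cast this
    have h3 := le_trans (hf y y').2 (hp h2)
    have h4 : nndist (f y) (f y') ≤ (L : ℝ≥0) := le_trans h3 hL
    have h5 : dist (f y) (f y') ≤ (L : ℝ) := by
      rw [← coe_nndist]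
      exact_mod_cast h4
    push_cast
    linarith
  obtain ⟨R, hR⟩ := (htend.eventually_gt_atTop ((L + 1 : ℕ) : ℝ≥0)).exists_forall_of_atTop
  obtain ⟨K, hK⟩ := hY ((R : ℝ) + 1) (by positivity)
  refine ⟨L + 1, K, by omega, hL1, fun y => ?_⟩
  refine le_trans (Set.encard_le_encard ?_) (hK y)
  intro y' hy'
  rw [Metric.mem_closedBall, dist_comm]
  by_contra hcon
  push Not at hcon
  have h1 : R ≤ nndist y y' := by
    have : (R : ℝ) ≤ (nndist y y' : ℝ) := by rw [coe_nndist]; linarith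
    exact_mod_cast this
  have h2 := hR _ h1
  have h3 := lt_of_lt_of_le h2 (hf y y').1
  have h4 : (((L + 1 : ℕ) : ℝ≥0) : ℝ) < (nndist (f y) (f y') : ℝ) := by exact_mod_cast h3
  rw [coe_nndist] at h4
  have h5 : dist (f y) (f y') ≤ ((L + 1 : ℕ) : ℝ) := hy'
  have h6 : (((L + 1 : ℕ) : ℝ≥0) : ℝ) = ((L + 1 : ℕ) : ℝ) := by simp
  rw [h6] at h4
  exact absurd h5 (not_le.2 h4)

/-- For every metric space `X` of bounded geometry there is a metric space `Y` of bounded
geometry that admits no coarse embedding into `X`. -/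
theorem result (X : Type u) [MetricSpace X] (hX : BoundedGeometry X) :
    ∃ (Y : Type) (_ : MetricSpace Y), BoundedGeometry Y ∧
      ¬ ∃ f : Y → X, IsCoarseEmbedding f := by
  classical
  rcases isEmpty_or_nonempty X with hemp | hne
  · refine ⟨ℕ, graphMetric (graph (fun _ => 1)) (graph_connected _), boundedGeometry_graph _, ?_⟩
    rintro ⟨f, _⟩
    exact hemp.elim (f 0)
  · obtain ⟨z⟩ := hne
    have hcount : Countable X := by
      rw [← Set.countable_univ_iff]
      have : (Set.univ : Set X) = ⋃ n : ℕ, Metric.closedBall z ((n : ℝ) + 1) := by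
        symm
        rw [Set.eq_univ_iff_forall]
        intro x
        rw [Set.mem_iUnion]
        obtain ⟨n, hn⟩ := exists_nat_ge (dist x z)
        exact ⟨n, by rw [Metric.mem_closedBall]; linarith⟩
      rw [this]
      apply Set.countable_iUnion
      intro n
      obtain ⟨N, hN⟩ := hX ((n : ℝ) + 1) (by positivity)
      exact (Set.finite_of_encard_le_coe (hN z)).countable
    haveI := Encodable.ofCountable X
    have hchoice : ∀ k : ℕ, ∃ π : Equiv.Perm (Fin (2 ^ k)), ∀ t : X × ℕ × ℕ,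
        Encodable.encode t = (Nat.unpair k).1 →
        (∃ π' : Equiv.Perm (Fin (2 ^ k)), π' ∉ Bad k t.1 t.2.1 t.2.2) →
        π ∉ Bad k t.1 t.2.1 t.2.2 := by
      intro k
      by_cases h : ∃ t : X × ℕ × ℕ, Encodable.encode t = (Nat.unpair k).1 ∧
          ∃ π' : Equiv.Perm (Fin (2 ^ k)), π' ∉ Bad k t.1 t.2.1 t.2.2
      · obtain ⟨t, ht, π', hπ'⟩ := h
        refine ⟨π', fun t' ht' _ => ?_⟩
        have : t' = t := Encodable.encode_injective (ht'.trans ht.symm)
        rw [this]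
        exact hπ'
      · refine ⟨1, fun t ht ht' => ?_⟩
        exact absurd ⟨t, ht, ht'⟩ h
    choose π hπ using hchoice
    letI mY : MetricSpace ℕ := graphMetric (graph π) (graph_connected π)
    have hYbg : BoundedGeometry ℕ := boundedGeometry_graph π
    refine ⟨ℕ, mY, hYbg, ?_⟩
    rintro ⟨f, ρm, ρp, hm, hp, htend, hf⟩
    obtain ⟨L, K, hL, hL1, hK1⟩ := @coarse_data ℕ X mY _ f ⟨ρm, ρp, hm, hp, htend, hf⟩ hYbg
    obtain ⟨D, hD⟩ := hX (L : ℝ) (by exact_mod_cast hL)
    obtain ⟨k₀, hk₀⟩ := exists_good (f 0) L K D hD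
    let t : X × ℕ × ℕ := (f 0, L, K)
    let k := Nat.pair (Encodable.encode t) k₀
    have hk : k₀ ≤ k := Nat.right_le_pair _ _
    have hk1 : (Nat.unpair k).1 = Encodable.encode t := by
      simp [k]
    have hgood := hπ k t hk1.symm (hk₀ k hk)
    apply hgood
    have hadj : ∀ i j : ℕ, i = j ∨ (graph π).Adj i j → dist (f i) (f j) ≤ (L : ℝ) := by
      intro i j hij
      apply hL1
      change ((graph π).dist i j : ℝ) ≤ 1
      rcases hij with rfl | hij
      · rw [SimpleGraph.dist_self]; simp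
      · rw [SimpleGraph.dist_eq_one_iff_adj.2 hij]; simp
    exact ⟨f, rfl, fun i => hadj i (i + 1) (Or.inr (graph_succ π i)), hK1,
      fun a => hadj _ _ (graph_perm π k a)⟩

end Pool.Agent.Results.MP_2fc951_gt.NoUniversalSpace
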